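import Mathlib.Analysis.InnerProductSpace.Adjoint
import Mathlib.Analysis.InnerProductSpace.PiL2
import Mathlib.Geometry.Manifold.Instances.Sphere
import Mathlib.MeasureTheory.Constructions.HaarToSphere
import Mathlib.MeasureTheory.Measure.Lebesgue.VolumeOfBalls
import Mathlib.Analysis.SpecialFunctions.Gaussian.FourierTransform
import Mathlib.Analysis.SpecialFunctions.Gamma.Beta

/-!
# Project PU (MP_19c155_gt): smooth unit fields whose volume tends to `c*(m,1) vol(S)`

`J` is an orthogonal complex structure, `a` a unit vector, `b = J a`.  For `0 < μ ≤ 1`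
`Wm J a μ x` is, on the unit sphere, the parallel transport of `J z` from `z = z_μ(x)` to `x` along the
great circle, where `z_μ` is the conformal dilation with fixed points `±a`; `μ = 1` is the Hopf field,
`μ = 0` the parallel transport field.
-/

open MeasureTheory Set Metric Filter Module
open scoped NNReal Topology RealInnerProductSpace ENNReal Real ContDiff Manifold

namespace Pool.Agent.Helper19.PU

variable {E : Type*} [NormedAddCommGroup E] [InnerProductSpace ℝ E]

open Classical in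
/-- copy of `Helper20.VF.radExt`. -/
noncomputable def radExt (V : sphere (0 : E) 1 → E) (y : E) : E :=
  if hy : y = 0 then 0 else V ⟨‖y‖⁻¹ • y, by
    rw [mem_sphere_zero_iff_norm, norm_smul, norm_inv, norm_norm,
      inv_mul_cancel₀ (norm_ne_zero_iff.2 hy)]⟩

/-- copy of `Helper20.VF.covDeriv`. -/
noncomputable def covDeriv (V : sphere (0 : E) 1 → E) (x : sphere (0 : E) 1) : E →L[ℝ] E :=
  fderiv ℝ (radExt V) x - ((innerSL ℝ (x : E)) ∘L fderiv ℝ (radExt V) x).smulRight (x : E)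

/-- copy of `Helper20.VF.volDens`. -/
noncomputable def volDens [FiniteDimensional ℝ E] (L : E →L[ℝ] E) : ℝ :=
  √((1 + L.adjoint ∘L L).det)

/-- denominator. -/
noncomputable def Dm (a : E) (μ : ℝ) (x : E) : ℝ := (1 + ⟪a, x⟫) + μ ^ 2 * (1 - ⟪a, x⟫)

/-- numerator, `b = J a`. -/
noncomputable def Nm (J : E →L[ℝ] E) (a : E) (μ : ℝ) (x : E) : E :=
  ((1 - μ) * ((1 + ⟪a, x⟫) + μ * (1 - ⟪a, x⟫))) • J a + (2 * μ) • J x
    - ((1 - μ) * ⟪J a, x⟫) • ((1 - μ) • a + (1 + μ) • x)

/-- the field. -/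
noncomputable def Wm (J : E →L[ℝ] E) (a : E) (μ : ℝ) (x : E) : E := (Dm a μ x)⁻¹ • Nm J a μ x

/-- derivative of the numerator. -/
noncomputable def dN (J : E →L[ℝ] E) (a : E) (μ : ℝ) (x : E) : E →L[ℝ] E :=
  ((1 - μ) ^ 2 • innerSL ℝ a).smulRight (J a) + (2 * μ) • J
    - ((1 - μ) • innerSL ℝ (J a)).smulRight ((1 - μ) • a + (1 + μ) • x)
    - ((1 - μ) * ⟪J a, x⟫ * (1 + μ)) • ContinuousLinearMap.id ℝ E

/-- derivative of the field. -/
noncomputable def dW (J : E →L[ℝ] E) (a : E) (μ : ℝ) (x : E) : E →L[ℝ] E :=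
  (Dm a μ x)⁻¹ • dN J a μ x
    - ((Dm a μ x ^ 2)⁻¹ * (1 - μ ^ 2)) • (innerSL ℝ a).smulRight (Nm J a μ x)

/-- projection to `x^⊥`. -/
noncomputable def pr (x : E) : E →L[ℝ] E := ContinuousLinearMap.id ℝ E - (innerSL ℝ x).smulRight x

/-- the covariant derivative of the field at a point of the sphere. -/
noncomputable def Tm (J : E →L[ℝ] E) (a : E) (μ : ℝ) (x : E) : E →L[ℝ] E :=
  pr x ∘L dW J a μ x ∘L pr x

/-- orthogonal complex structures. -/
structure CS (J : E →L[ℝ] E) : Prop where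
  norm : ∀ x, ‖J x‖ = ‖x‖
  inner : ∀ x, ⟪x, J x⟫ = 0

end Pool.Agent.Helper19.PU
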