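import Mathlib
import Pool.Agent.Helper59.PU.P9
import Pool.Agent.Helper75.PU.P10
import Pool.Agent.Helper20.VF.Polar

/-!
# PU-12: the volume of the parallel transport field
-/

open MeasureTheory Set Metric Filter Module
open scoped NNReal Topology RealInnerProductSpace ENNReal Real ContDiff Manifold

namespace Pool.Agent.Helper19.PU

variable {E : Type*} [NormedAddCommGroup E] [InnerProductSpace ℝ E]

/-- a Bochner integral with a positive value as a Lebesgue integral -/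
private lemma P12_lint {α : Type*} [MeasurableSpace α] {μ : Measure α} {f : α → ℝ} {c : ℝ}
    (h : ∫ x, f x ∂μ = c) (hc : 0 < c) (hf : 0 ≤ᵐ[μ] f) :
    ∫⁻ x, ENNReal.ofReal (f x) ∂μ = ENNReal.ofReal c := by
  have hi : Integrable f μ := by
    by_contra hn
    rw [integral_undef hn] at h
    exact hc.ne h
  rw [← ofReal_integral_eq_lintegral_ofReal hi hf, h]

/-- Fubini along the line spanned by a unit vector, for Lebesgue integrals -/
private lemma P12_slice [FiniteDimensional ℝ E] [MeasurableSpace E] [BorelSpace E] (a : E)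
    (ha : ‖a‖ = 1) (f : E → ℝ≥0∞) (hf : Measurable f) :
    ∫⁻ x, f x = ∫⁻ Z : (ℝ ∙ a)ᗮ, ∫⁻ s : ℝ, f (s • a + (Z : E)) := by
  have h := (Pool.Agent.Helper20.VF.measurePreserving_slice a ha).lintegral_comp hf
  rw [← h]
  simp_rw [Pool.Agent.Helper20.VF.sliceEquiv_apply]
  rw [lintegral_prod_symm']
  exact hf.comp (by fun_prop)

/-- the radial integral -/
private lemma P12_radial (m : ℕ) (hm : 1 ≤ m) :
    ∫⁻ r in Ioi (0 : ℝ), ENNReal.ofReal (r ^ (2 * m + 1)) *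
        ENNReal.ofReal (r ^ (-(3 / 2) : ℝ) * Real.exp (-r)) =
      ENNReal.ofReal (Real.Gamma (2 * m + 1 / 2)) := by
  have hm' : (1 : ℝ) ≤ m := by exact_mod_cast hm
  have hpos : (0 : ℝ) < 2 * m + 1 / 2 := by positivity
  have h := Real.integral_rpow_mul_exp_neg_mul_Ioi hpos one_pos
  rw [div_one, Real.one_rpow, one_mul] at h
  have hG := Real.Gamma_pos_of_pos hpos
  rw [← P12_lint h hG]
  · refine setLIntegral_congr_fun measurableSet_Ioi fun r hr => ?_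
    have hr' : (0 : ℝ) < r := hr
    rw [← ENNReal.ofReal_mul (by positivity), ← mul_assoc, ← Real.rpow_natCast,
      ← Real.rpow_add hr', one_mul]
    congr 3
    push_cast
    ring_nf
  · filter_upwards [ae_restrict_mem measurableSet_Ioi] with r hr
    have hr' : (0 : ℝ) < r := hr
    simp only [Pi.zero_apply]
    positivity

/-- the integrand on `E` -/
private noncomputable def P12_g (m : ℕ) (β t R : ℝ) : ℝ :=
  √(2 / (R + t)) * √(1 + (β / (R + t)) ^ 2) ^ (2 * m - 1) * (R⁻¹ * Real.exp (-R))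

/-- the integrand in parabolic coordinates -/
private noncomputable def P12_H (m : ℕ) (q β w : ℝ) : ℝ :=
  √(2 / q) * q⁻¹ * √(1 + (β / q) ^ 2) ^ (2 * m - 1) * Real.exp (-(q / 2)) *
    Real.exp (-(w / (2 * q)))

/-- the integrand in the last two variables -/
private noncomputable def P12_K (m : ℕ) (q η : ℝ) : ℝ :=
  √(2 / q) * (2 * π * q) ^ m * √(1 + η ^ 2) ^ (2 * m - 1) * Real.exp (-(q / 2)) *
    Real.exp (-(q * η ^ 2 / 2))

private lemma P12_polar [FiniteDimensional ℝ E] [MeasurableSpace E] [BorelSpace E]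
    (m : ℕ) (hm : 1 ≤ m) (hfr : finrank ℝ E = 2 * m + 2) (a b : E) :
    ∫⁻ x : E, ENNReal.ofReal (P12_g m ⟪b, x⟫ ⟪a, x⟫ ‖x‖) =
      (∫⁻ u : sphere (0 : E) 1, ENNReal.ofReal (√(2 / (1 + ⟪a, (u : E)⟫))
        * √(1 + (⟪b, (u : E)⟫ / (1 + ⟪a, (u : E)⟫)) ^ 2) ^ (2 * m - 1))
      ∂(volume : Measure E).toSphere) * ENNReal.ofReal (Real.Gamma (2 * m + 1 / 2)) := by
  have : Nontrivial E := nontrivial_of_finrank_pos (R := ℝ) (by omega)
  rw [lintegral_polar_mul (fun x : E => ENNReal.ofReal (P12_g m ⟪b, x⟫ ⟪a, x⟫ ‖x‖))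
    (fun u : sphere (0 : E) 1 => ENNReal.ofReal (√(2 / (1 + ⟪a, (u : E)⟫))
        * √(1 + (⟪b, (u : E)⟫ / (1 + ⟪a, (u : E)⟫)) ^ 2) ^ (2 * m - 1)))
    (fun r => ENNReal.ofReal (r ^ (-(3 / 2) : ℝ) * Real.exp (-r))) ?_ ?_ ?_]
  · rw [hfr, show 2 * m + 2 - 1 = 2 * m + 1 by omega, P12_radial m hm]
  · have h1 : Measurable (fun u : sphere (0 : E) 1 => ⟪a, (u : E)⟫) := by fun_prop
    have h2 : Measurable (fun u : sphere (0 : E) 1 => ⟪b, (u : E)⟫) := by fun_prop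
    have h3 : Measurable (fun p : ℝ × ℝ => √(2 / (1 + p.1)) *
      √(1 + (p.2 / (1 + p.1)) ^ 2) ^ (2 * m - 1)) := by fun_prop
    exact (h3.comp (h1.prodMk h2)).ennreal_ofReal
  · fun_prop
  · intro u r hr
    have hu : ‖(u : E)‖ = 1 := by simp
    rw [← ENNReal.ofReal_mul (by positivity)]
    congr 1
    unfold P12_g
    rw [inner_smul_right, inner_smul_right, norm_smul, hu, mul_one, Real.norm_of_nonneg hr.le]
    have e1 : r + r * ⟪a, (u : E)⟫ = r * (1 + ⟪a, (u : E)⟫) := by ring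
    have e2 : r * ⟪b, (u : E)⟫ / (r * (1 + ⟪a, (u : E)⟫)) = ⟪b, (u : E)⟫ / (1 + ⟪a, (u : E)⟫) :=
      mul_div_mul_left _ _ hr.ne'
    have e3 : √(2 / (r * (1 + ⟪a, (u : E)⟫))) = √(2 / (1 + ⟪a, (u : E)⟫)) * r ^ (-(1 / 2) : ℝ) := by
      rw [mul_comm r, ← div_div, Real.sqrt_div' _ hr.le, Real.sqrt_eq_rpow r,
        Real.rpow_neg hr.le, div_eq_mul_inv]
    have e4 : r ^ (-(3 / 2) : ℝ) = r ^ (-(1 / 2) : ℝ) * r⁻¹ := by
      rw [← Real.rpow_neg_one, ← Real.rpow_add hr]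
      norm_num
    rw [e1, e2, e3, e4]
    ring

private lemma P12_line (m : ℕ) (β w : ℝ) (hw : 0 < w) :
    ∫⁻ s : ℝ, ENNReal.ofReal (P12_g m β s √(s ^ 2 + w)) =
      ∫⁻ q in Ioi (0 : ℝ), ENNReal.ofReal (P12_H m q β w) := by
  rw [lintegral_parabolic_one w hw (fun s R => ENNReal.ofReal (P12_g m β s R))]
  refine setLIntegral_congr_fun measurableSet_Ioi fun q hq => ?_
  have hq' : (0 : ℝ) < q := hq
  rw [← ENNReal.ofReal_mul (by positivity)]
  congr 1
  unfold P12_g P12_H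
  have e1 : (q ^ 2 + w) / (2 * q) + (q ^ 2 - w) / (2 * q) = q := by field_simp; ring
  have e2 : Real.exp (-((q ^ 2 + w) / (2 * q))) =
      Real.exp (-(q / 2)) * Real.exp (-(w / (2 * q))) := by
    rw [← Real.exp_add]
    congr 1
    field_simp
    ring
  have hqw : q ^ 2 + w ≠ 0 := by positivity
  have e3 : (q ^ 2 + w) / (2 * q ^ 2) * ((q ^ 2 + w) / (2 * q))⁻¹ = q⁻¹ := by
    field_simp
  rw [e1, e2, ← e3]
  ring

private lemma P12_gauss {V : Type*} [NormedAddCommGroup V] [InnerProductSpace ℝ V]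
    [FiniteDimensional ℝ V] [MeasurableSpace V] [BorelSpace V] (m : ℕ)
    (hfr : finrank ℝ V = 2 * m) {q : ℝ} (hq : 0 < q) :
    ∫⁻ Y : V, ENNReal.ofReal (Real.exp (-(‖Y‖ ^ 2 / (2 * q)))) =
      ENNReal.ofReal ((2 * π * q) ^ m) := by
  have h := GaussianFourier.integral_rexp_neg_mul_sq_norm (V := V) (b := 1 / (2 * q))
    (by positivity)
  rw [hfr] at h
  have e : (π / (1 / (2 * q))) ^ (((2 * m : ℕ) : ℝ) / 2) = (2 * π * q) ^ m := by
    rw [← Real.rpow_natCast]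
    congr 1
    · field_simp
    · push_cast; ring
  rw [e] at h
  have e2 : (fun Y : V => Real.exp (-(‖Y‖ ^ 2 / (2 * q)))) =
      fun Y : V => Real.exp (-(1 / (2 * q)) * ‖Y‖ ^ 2) := by
    funext Y
    congr 1
    ring
  have e3 := P12_lint h (by positivity)
    (Eventually.of_forall fun Y => (Real.exp_pos _).le)
  rw [← e3]
  refine lintegral_congr fun Y => ?_
  rw [congrFun e2 Y]

private lemma P12_Z {F : Type*} [NormedAddCommGroup F] [InnerProductSpace ℝ F]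
    [FiniteDimensional ℝ F] [MeasurableSpace F] [BorelSpace F] (m : ℕ)
    (hfr : finrank ℝ F = 2 * m + 1) (b : F) (hb : ‖b‖ = 1) {q : ℝ} (hq : 0 < q) :
    ∫⁻ Z : F, ENNReal.ofReal (P12_H m q ⟪b, Z⟫ (‖Z‖ ^ 2)) =
      ∫⁻ η : ℝ, ENNReal.ofReal (P12_K m q η) := by
  have hmeas : Measurable (fun Z : F => ENNReal.ofReal (P12_H m q ⟪b, Z⟫ (‖Z‖ ^ 2))) := by
    have h1 : Measurable (fun Z : F => ⟪b, Z⟫) := by fun_prop
    have h2 : Measurable (fun Z : F => ‖Z‖ ^ 2) := by fun_prop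
    have h3 : Measurable (fun p : ℝ × ℝ => P12_H m q p.1 p.2) := by
      unfold P12_H
      fun_prop
    exact (h3.comp (h1.prodMk h2)).ennreal_ofReal
  rw [P12_slice b hb _ hmeas]
  set A : ℝ → ℝ := fun ξ => √(2 / q) * q⁻¹ * √(1 + (ξ / q) ^ 2) ^ (2 * m - 1) *
    Real.exp (-(q / 2)) * Real.exp (-(ξ ^ 2 / (2 * q))) with hA
  have hAm : Measurable A := by fun_prop
  have hbb : ⟪b, b⟫ = 1 := by rw [real_inner_self_eq_norm_sq, hb]; norm_num
  have key : ∀ (Y : (ℝ ∙ b)ᗮ) (ξ : ℝ),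
      ENNReal.ofReal (P12_H m q ⟪b, ξ • b + (Y : F)⟫ (‖ξ • b + (Y : F)‖ ^ 2)) =
        ENNReal.ofReal (A ξ) * ENNReal.ofReal (Real.exp (-(‖Y‖ ^ 2 / (2 * q)))) := by
    intro Y ξ
    have hY : ⟪b, (Y : F)⟫ = 0 := Submodule.mem_orthogonal_singleton_iff_inner_right.mp Y.2
    have e1 : ⟪b, ξ • b + (Y : F)⟫ = ξ := by
      rw [inner_add_right, inner_smul_right, hbb, hY]; ring
    have e2 : ‖ξ • b + (Y : F)‖ ^ 2 = ξ ^ 2 + ‖Y‖ ^ 2 := by
      rw [← real_inner_self_eq_norm_sq, inner_add_left, inner_add_right, inner_add_right,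
        inner_smul_left, inner_smul_left, inner_smul_right, hbb, inner_smul_right,
        real_inner_comm b (Y : F), hY, real_inner_self_eq_norm_sq]
      simp
      ring
    rw [e1, e2, ← ENNReal.ofReal_mul (by positivity)]
    congr 1
    unfold P12_H
    have e3 : Real.exp (-((ξ ^ 2 + ‖Y‖ ^ 2) / (2 * q))) =
        Real.exp (-(ξ ^ 2 / (2 * q))) * Real.exp (-(‖Y‖ ^ 2 / (2 * q))) := by
      rw [← Real.exp_add]
      congr 1
      ring
    rw [e3]
    ring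
  simp_rw [key]
  have hfr2 : finrank ℝ (ℝ ∙ b)ᗮ = 2 * m := by
    have : Fact (finrank ℝ F = 2 * m + 1) := ⟨hfr⟩
    exact Submodule.finrank_orthogonal_span_singleton (norm_ne_zero_iff.mp (by rw [hb]; norm_num))
  have h1 : ∀ Y : (ℝ ∙ b)ᗮ, ∫⁻ ξ : ℝ, ENNReal.ofReal (A ξ) *
      ENNReal.ofReal (Real.exp (-(‖Y‖ ^ 2 / (2 * q)))) =
        (∫⁻ ξ : ℝ, ENNReal.ofReal (A ξ)) * ENNReal.ofReal (Real.exp (-(‖Y‖ ^ 2 / (2 * q)))) :=
    fun Y => lintegral_mul_const _ hAm.ennreal_ofReal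
  simp_rw [h1]
  rw [lintegral_const_mul _ (by fun_prop), P12_gauss m hfr2 hq]
  -- change of variables
  have h2 : ∫⁻ η : ℝ, ENNReal.ofReal (A (q * η)) =
      ENNReal.ofReal q⁻¹ * ∫⁻ ξ : ℝ, ENNReal.ofReal (A ξ) := by
    have h3 := lintegral_map (μ := (volume : Measure ℝ)) (f := fun ξ => ENNReal.ofReal (A ξ))
      (g := fun η : ℝ => q * η) hAm.ennreal_ofReal (by fun_prop)
    rw [← h3, Real.map_volume_mul_left hq.ne', lintegral_smul_measure,
      abs_of_pos (by positivity)]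
    rfl
  have h4 : (∫⁻ ξ : ℝ, ENNReal.ofReal (A ξ)) =
      ENNReal.ofReal q * ∫⁻ η : ℝ, ENNReal.ofReal (A (q * η)) := by
    rw [h2, ← mul_assoc, ← ENNReal.ofReal_mul hq.le, mul_inv_cancel₀ hq.ne',
      ENNReal.ofReal_one, one_mul]
  have hAq : Measurable (fun η => A (q * η)) := hAm.comp (by fun_prop)
  rw [h4, mul_comm, ← mul_assoc, ← ENNReal.ofReal_mul (by positivity),
    ← lintegral_const_mul _ hAq.ennreal_ofReal]
  refine lintegral_congr fun η => ?_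
  rw [← ENNReal.ofReal_mul (by positivity)]
  congr 1
  rw [hA]
  unfold P12_K
  have e5 : q * η / q = η := by field_simp
  have e6 : (q * η) ^ 2 / (2 * q) = q * η ^ 2 / 2 := by field_simp
  simp only [e5, e6]
  field_simp

private lemma P12_qint (m : ℕ) (hm : 1 ≤ m) (η : ℝ) :
    ∫⁻ q in Ioi (0 : ℝ), ENNReal.ofReal (P12_K m q η) =
      ENNReal.ofReal (2 ^ (2 * m + 1) * π ^ m * Real.Gamma (m + 1 / 2) * (1 + η ^ 2)⁻¹) := by
  set S : ℝ := 1 + η ^ 2 with hS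
  have hS0 : 0 < S := by positivity
  have hpos : (0 : ℝ) < m + 1 / 2 := by positivity
  have hG := Real.Gamma_pos_of_pos hpos
  have h := Real.integral_rpow_mul_exp_neg_mul_Ioi hpos (half_pos hS0)
  set c0 : ℝ := √2 * (2 * π) ^ m * √S ^ (2 * m - 1) with hc0
  have h2 : ∫ q in Ioi (0 : ℝ), c0 * (q ^ ((m : ℝ) + 1 / 2 - 1) * Real.exp (-(S / 2 * q))) =
      2 ^ (2 * m + 1) * π ^ m * Real.Gamma (m + 1 / 2) * S⁻¹ := by
    rw [integral_const_mul, h]
    have e1 : √S ^ (2 * m - 1) = S ^ ((m : ℝ) - 1 / 2) := by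
      rw [Real.sqrt_eq_rpow, ← Real.rpow_natCast, ← Real.rpow_mul hS0.le]
      congr 1
      rw [Nat.cast_sub (by omega)]
      push_cast
      ring
    have e2 : (1 / (S / 2)) ^ ((m : ℝ) + 1 / 2) = 2 ^ m * √2 * (S ^ ((m : ℝ) + 1 / 2))⁻¹ := by
      rw [one_div_div, Real.div_rpow (by norm_num) hS0.le, Real.rpow_add (by norm_num),
        Real.rpow_natCast, ← Real.sqrt_eq_rpow, div_eq_mul_inv]
    have e3 : S ^ ((m : ℝ) - 1 / 2) * (S ^ ((m : ℝ) + 1 / 2))⁻¹ = S⁻¹ := by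
      rw [← Real.rpow_neg hS0.le, ← Real.rpow_add hS0, ← Real.rpow_neg_one]
      congr 1
      ring
    have e4 : √2 * √2 = 2 := Real.mul_self_sqrt (by norm_num)
    rw [hc0, e1, e2, ← e3]
    have e5 : (2 : ℝ) ^ (2 * m + 1) * π ^ m = (√2 * √2) * 2 ^ m * (2 * π) ^ m := by
      rw [e4, mul_pow, pow_succ, pow_mul]
      have : ((2 : ℝ) ^ 2) ^ m = 2 ^ m * 2 ^ m := by
        rw [← mul_pow]; norm_num
      rw [this]
      ring
    rw [e5]
    ring
  have hpos2 : 0 < 2 ^ (2 * m + 1) * π ^ m * Real.Gamma (m + 1 / 2) * S⁻¹ := by positivity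
  rw [← P12_lint h2 hpos2]
  · refine setLIntegral_congr_fun measurableSet_Ioi fun q hq => ?_
    have hq' : (0 : ℝ) < q := hq
    congr 1
    unfold P12_K
    rw [hc0]
    have e1 : √(2 / q) * (2 * π * q) ^ m = √2 * (2 * π) ^ m * q ^ ((m : ℝ) + 1 / 2 - 1) := by
      rw [Real.sqrt_div' _ hq'.le, mul_pow, show ((m : ℝ) + 1 / 2 - 1) = m - 1 / 2 by ring,
        Real.rpow_sub hq', Real.rpow_natCast, ← Real.sqrt_eq_rpow]
      ring
    have e2 : Real.exp (-(S / 2 * q)) = Real.exp (-(q / 2)) * Real.exp (-(q * η ^ 2 / 2)) := by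
      rw [← Real.exp_add, hS]
      congr 1
      ring
    rw [e1, e2]
    ring
  · filter_upwards [ae_restrict_mem measurableSet_Ioi] with q hq
    have hq' : (0 : ℝ) < q := hq
    simp only [Pi.zero_apply]
    positivity

private lemma P12_final (m : ℕ) (hm : 1 ≤ m) :
    ∫⁻ q in Ioi (0 : ℝ), ∫⁻ η : ℝ, ENNReal.ofReal (P12_K m q η) =
      ENNReal.ofReal (2 ^ (2 * m + 1) * π ^ (m + 1) * Real.Gamma (m + 1 / 2)) := by
  have hm2 : Measurable (Function.uncurry fun q η => ENNReal.ofReal (P12_K m q η)) := by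
    have : Measurable (fun p : ℝ × ℝ => P12_K m p.1 p.2) := by
      unfold P12_K
      fun_prop
    exact this.ennreal_ofReal
  rw [lintegral_lintegral_swap hm2.aemeasurable]
  simp_rw [P12_qint m hm]
  have hG : 0 < Real.Gamma ((m : ℝ) + 1 / 2) := Real.Gamma_pos_of_pos (by positivity)
  refine P12_lint ?_ (by positivity) (Eventually.of_forall fun η => by positivity)
  rw [integral_const_mul, integral_univ_inv_one_add_sq]
  ring

/-- PU-12: the volume of the parallel transport field -/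
theorem lintegral_density [FiniteDimensional ℝ E] [MeasurableSpace E] [BorelSpace E]
    (m : ℕ) (hm : 1 ≤ m) (hfr : finrank ℝ E = 2 * m + 2) {a b : E} (ha : ‖a‖ = 1) (hb : ‖b‖ = 1)
    (hab : ⟪a, b⟫ = 0) :
    ∫⁻ u : sphere (0 : E) 1, ENNReal.ofReal (√(2 / (1 + ⟪a, (u : E)⟫))
        * √(1 + (⟪b, (u : E)⟫ / (1 + ⟪a, (u : E)⟫)) ^ 2) ^ (2 * m - 1))
      ∂(volume : Measure E).toSphere
      = ENNReal.ofReal (2 ^ (2 * m + 1) * π ^ (m + 1) * Real.Gamma (m + 1 / 2)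
          / Real.Gamma (2 * m + 1 / 2)) := by
  have ha0 : a ≠ 0 := norm_ne_zero_iff.mp (by rw [ha]; norm_num)
  have haa : ⟪a, a⟫ = 1 := by rw [real_inner_self_eq_norm_sq, ha]; norm_num
  have hba : ⟪b, a⟫ = 0 := by rw [real_inner_comm]; exact hab
  have hfr2 : finrank ℝ (ℝ ∙ a)ᗮ = 2 * m + 1 := by
    have : Fact (finrank ℝ E = 2 * m + 1 + 1) := ⟨hfr⟩
    exact Submodule.finrank_orthogonal_span_singleton ha0
  have : Nontrivial (ℝ ∙ a)ᗮ := nontrivial_of_finrank_pos (R := ℝ) (by omega)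
  set b' : (ℝ ∙ a)ᗮ := ⟨b, Submodule.mem_orthogonal_singleton_iff_inner_right.mpr hab⟩ with hb'
  have hb'n : ‖b'‖ = 1 := hb
  have hmeas : Measurable (fun x : E => ENNReal.ofReal (P12_g m ⟪b, x⟫ ⟪a, x⟫ ‖x‖)) := by
    have h1 : Measurable (fun x : E => ⟪b, x⟫) := by fun_prop
    have h2 : Measurable (fun x : E => ⟪a, x⟫) := by fun_prop
    have h3 : Measurable (fun x : E => ‖x‖) := by fun_prop
    have h4 : Measurable (fun p : ℝ × ℝ × ℝ => P12_g m p.1 p.2.1 p.2.2) := by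
      unfold P12_g
      fun_prop
    exact (h4.comp (h1.prodMk (h2.prodMk h3))).ennreal_ofReal
  have hL : ∫⁻ x : E, ENNReal.ofReal (P12_g m ⟪b, x⟫ ⟪a, x⟫ ‖x‖) =
      ENNReal.ofReal (2 ^ (2 * m + 1) * π ^ (m + 1) * Real.Gamma (m + 1 / 2)) := by
    rw [P12_slice a ha _ hmeas]
    have h1 : ∀ᵐ Z : (ℝ ∙ a)ᗮ,
        ∫⁻ s : ℝ, ENNReal.ofReal (P12_g m ⟪b, s • a + (Z : E)⟫ ⟪a, s • a + (Z : E)⟫
          ‖s • a + (Z : E)‖) =
        ∫⁻ q in Ioi (0 : ℝ), ENNReal.ofReal (P12_H m q ⟪b', Z⟫ (‖Z‖ ^ 2)) := by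
      have hne : ∀ᵐ Z : (ℝ ∙ a)ᗮ, Z ≠ 0 := by
        rw [ae_iff]
        simp
      filter_upwards [hne] with Z hZ
      have hZ0 : 0 < ‖Z‖ ^ 2 := by
        have := norm_pos_iff.mpr hZ
        positivity
      have haZ : ⟪a, (Z : E)⟫ = 0 := Submodule.mem_orthogonal_singleton_iff_inner_right.mp Z.2
      rw [← P12_line m ⟪b', Z⟫ (‖Z‖ ^ 2) hZ0]
      refine lintegral_congr fun s => ?_
      have e1 : ⟪b, s • a + (Z : E)⟫ = ⟪b', Z⟫ := by
        rw [inner_add_right, inner_smul_right, hba, mul_zero, zero_add]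
        rfl
      have e2 : ⟪a, s • a + (Z : E)⟫ = s := by
        rw [inner_add_right, inner_smul_right, haa, haZ]; ring
      have e3 : ‖s • a + (Z : E)‖ = √(s ^ 2 + ‖Z‖ ^ 2) := by
        rw [← Real.sqrt_sq (norm_nonneg _)]
        congr 1
        rw [← real_inner_self_eq_norm_sq, inner_add_left, inner_add_right, inner_add_right,
          inner_smul_left, inner_smul_left, inner_smul_right, haa, inner_smul_right,
          real_inner_comm a (Z : E), haZ, real_inner_self_eq_norm_sq]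
        simp
        ring
      rw [e1, e2, e3]
    rw [lintegral_congr_ae h1]
    have hm3 : Measurable (Function.uncurry fun (Z : (ℝ ∙ a)ᗮ) (q : ℝ) =>
        ENNReal.ofReal (P12_H m q ⟪b', Z⟫ (‖Z‖ ^ 2))) := by
      have h1 : Measurable (fun p : (ℝ ∙ a)ᗮ × ℝ => ⟪b', p.1⟫) := by fun_prop
      have h2 : Measurable (fun p : (ℝ ∙ a)ᗮ × ℝ => ‖p.1‖ ^ 2) := by fun_prop
      have h4 : Measurable (fun p : ℝ × ℝ × ℝ => P12_H m p.1 p.2.1 p.2.2) := by
        unfold P12_H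
        fun_prop
      exact (h4.comp (measurable_snd.prodMk (h1.prodMk h2))).ennreal_ofReal
    rw [lintegral_lintegral_swap hm3.aemeasurable, ← P12_final m hm]
    refine setLIntegral_congr_fun measurableSet_Ioi fun q hq => ?_
    exact P12_Z m hfr2 b' hb'n hq
  have hP := P12_polar m hm hfr a b
  rw [hL] at hP
  have hG2 : 0 < Real.Gamma (2 * (m : ℝ) + 1 / 2) := Real.Gamma_pos_of_pos (by positivity)
  rw [ENNReal.ofReal_div_of_pos hG2, hP]
  rw [ENNReal.mul_div_cancel_right]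
  · exact (ENNReal.ofReal_pos.mpr hG2).ne'
  · exact ENNReal.ofReal_ne_top

end Pool.Agent.Helper19.PU
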