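import Mathlib
import Pool.Agent.Helper81.PU.P2
import Pool.Agent.Helper51.PU.P3
import Pool.Agent.Helper50.PU.P4
import Pool.Agent.Helper30.PU.P5
import Pool.Agent.Helper26.PU.P6
import Pool.Agent.Helper8.PU.P7
import Pool.Agent.Helper45.PU.P8
import Pool.Agent.Helper63.PU.P11
import Pool.Agent.Helper19.PU.P12
import Pool.Agent.Helper67.PU.P13
import Pool.Agent.Helper20.VF.Sphere

/-!
# Project PU: the volumes of the smooth fields `Wm J a μ` tend to the infimum
-/

open MeasureTheory Set Metric Filter Module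
open scoped NNReal Topology RealInnerProductSpace ENNReal Real ContDiff Manifold

namespace Pool.Agent.Helper19.PU

section

variable {E : Type*} [NormedAddCommGroup E] [InnerProductSpace ℝ E] [FiniteDimensional ℝ E]
  [MeasurableSpace E] [BorelSpace E]

lemma toSphere_singleton (hfr : 2 ≤ finrank ℝ E) (x₀ : sphere (0 : E) 1) :
    (volume : Measure E).toSphere {x₀} = 0 := by
  rw [Measure.toSphere_apply' _ (measurableSet_singleton _)]
  refine mul_eq_zero_of_right _ ?_
  refine measure_mono_null (t := ((ℝ ∙ (x₀ : E) : Submodule ℝ E) : Set E)) ?_ ?_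
  · rintro y ⟨r, -, z, ⟨w, hw, rfl⟩, rfl⟩
    rw [mem_singleton_iff] at hw
    subst hw
    exact Submodule.smul_mem _ _ (Submodule.mem_span_singleton_self _)
  · refine Measure.addHaar_submodule _ _ (fun h => ?_)
    have h0 : (x₀ : E) ≠ 0 := by
      intro h0
      have h2 := mem_sphere_zero_iff_norm.1 x₀.2
      rw [h0, norm_zero] at h2
      exact zero_ne_one h2
    have h1 : finrank ℝ (ℝ ∙ (x₀ : E) : Submodule ℝ E) = 1 := finrank_span_singleton h0
    rw [h, finrank_top] at h1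
    omega

end

theorem tendsto_volume (m : ℕ) (hm : 1 ≤ m) {E : Type*} [NormedAddCommGroup E]
    [InnerProductSpace ℝ E] [FiniteDimensional ℝ E] [MeasurableSpace E] [BorelSpace E]
    [Fact (finrank ℝ E = 2 * m + 1 + 1)] {J : E →L[ℝ] E} (hJ : CS J) {a : E} (ha : ‖a‖ = 1) :
    Tendsto (fun k : ℕ => ∫ x : sphere (0 : E) 1,
        volDens (covDeriv (fun y : sphere (0 : E) 1 => Wm J a (1 / ((k : ℝ) + 1)) (y : E)) x)
        ∂(volume : Measure E).toSphere) atTop
      (𝓝 (16 ^ m / ((4 * m).choose (2 * m) : ℝ) * (volume : Measure E).toSphere.real univ)) := by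
  have hfr : finrank ℝ E = 2 * m + 2 := Fact.out (p := finrank ℝ E = 2 * m + 1 + 1)
  set S := (volume : Measure E).toSphere with hS
  have hμ0 : ∀ k : ℕ, (0 : ℝ) < 1 / ((k : ℝ) + 1) := fun k => by positivity
  have hμ1 : ∀ k : ℕ, 1 / ((k : ℝ) + 1) ≤ 1 := fun k => by
    rw [div_le_one (by positivity)]
    have : (0 : ℝ) ≤ k := Nat.cast_nonneg k
    linarith
  have hx1 : ∀ x : sphere (0 : E) 1, ‖(x : E)‖ = 1 := fun x => mem_sphere_zero_iff_norm.1 x.2
  have hcov : ∀ (k : ℕ) (x : sphere (0 : E) 1),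
      covDeriv (fun y : sphere (0 : E) 1 => Wm J a (1 / ((k : ℝ) + 1)) (y : E)) x
        = Tm J a (1 / ((k : ℝ) + 1)) (x : E) := fun k x => by
    rw [covDeriv_of_hasFDerivAt (Wm J a (1 / ((k : ℝ) + 1))) x
      (hasFDerivAt_Wm J a (x : E) _ (Dm_pos ha (hx1 x) (Or.inl (hμ0 k).ne')).ne')]
    rfl
  have hmeas : ∀ k : ℕ, AEStronglyMeasurable (fun x : sphere (0 : E) 1 =>
      volDens (covDeriv (fun y : sphere (0 : E) 1 => Wm J a (1 / ((k : ℝ) + 1)) (y : E)) x)) S := by
    intro k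
    have h1 := contMDiff_Wm (n := 2 * m + 1) J ha (hμ0 k).ne'
    have h2 := Pool.Agent.Helper20.VF.uField_radExt (h1.of_le (by simp))
      (fun x => inner_Wm hJ ha (hx1 x) _) (fun x => norm_Wm hJ ha (hx1 x) (Or.inl (hμ0 k).ne'))
    have h3 : Continuous (fun x : sphere (0 : E) 1 => Pool.Agent.Helper20.VF.Jd
        (Pool.Agent.Helper20.VF.radExt (fun y : sphere (0 : E) 1 => Wm J a (1 / ((k : ℝ) + 1)) (y : E)))
          (x : E)) := by
      refine (Pool.Agent.Helper20.VF.continuousOn_Jd h2).comp_continuous continuous_subtype_val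
        (fun u h => ?_)
      rw [mem_singleton_iff] at h
      have h4 := hx1 u
      rw [h, norm_zero] at h4
      exact zero_ne_one h4
    exact h3.aestronglyMeasurable
  have hae : ∀ᵐ x : sphere (0 : E) 1 ∂S, (x : E) ≠ -a := by
    have h1 : ‖-a‖ = 1 := by rw [norm_neg, ha]
    have h2 := toSphere_singleton (E := E) (by omega) ⟨-a, mem_sphere_zero_iff_norm.2 h1⟩
    have h3 : ∀ᵐ x : sphere (0 : E) 1 ∂S, x ∈ ({⟨-a, mem_sphere_zero_iff_norm.2 h1⟩}ᶜ : Set _) :=
      compl_mem_ae_iff.2 h2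
    filter_upwards [h3] with x hx h
    exact hx (Subtype.ext h)
  have hu0 : ∀ x : sphere (0 : E) 1, (x : E) ≠ -a → 0 < 1 + ⟪a, (x : E)⟫ := fun x hx => by
    have := Dm_pos (μ := 0) ha (hx1 x) (Or.inr hx)
    simpa [Dm] using this
  -- the limit
  have hlim : ∀ᵐ x : sphere (0 : E) 1 ∂S, Tendsto (fun k : ℕ =>
      volDens (covDeriv (fun y : sphere (0 : E) 1 => Wm J a (1 / ((k : ℝ) + 1)) (y : E)) x)) atTop
      (𝓝 (√(2 / (1 + ⟪a, (x : E)⟫)) * √(1 + (⟪J a, (x : E)⟫ / (1 + ⟪a, (x : E)⟫)) ^ 2) ^ (2 * m - 1))) := by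
    filter_upwards [hae] with x hx
    simp_rw [hcov]
    rw [← volDens_zero m hm hfr hJ ha (hx1 x) hx]
    have hc : Continuous (volDens : (E →L[ℝ] E) → ℝ) := Pool.Agent.Helper20.VF.continuous_volDens
    exact (hc.tendsto _).comp ((tendsto_Tm J ha (hx1 x) hx).comp tendsto_one_div_add_atTop_nhds_zero_nat)
  -- the bound
  have hbound : ∀ k : ℕ, ∀ᵐ x : sphere (0 : E) 1 ∂S,
      ‖volDens (covDeriv (fun y : sphere (0 : E) 1 => Wm J a (1 / ((k : ℝ) + 1)) (y : E)) x)‖
        ≤ 202 ^ m * ((1 + ⟪a, (x : E)⟫) ^ m)⁻¹ := by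
    intro k
    filter_upwards [hae] with x hx
    have hu := hu0 x hx
    have hu2 : 1 + ⟪a, (x : E)⟫ ≤ 2 := by
      have := real_inner_le_norm a (x : E)
      rw [ha, hx1] at this
      linarith
    have hv0 : 0 ≤ volDens (Tm J a (1 / ((k : ℝ) + 1)) (x : E)) := Real.sqrt_nonneg _
    rw [hcov, Real.norm_eq_abs, abs_of_nonneg hv0]
    have h1 := norm_Tm_sq hJ (μ := 1 / ((k : ℝ) + 1)) ha (hx1 x) (hμ0 k).le (hμ1 k) (Or.inr hx)
    have h2 := volDens_le m hfr (Tm J a (1 / ((k : ℝ) + 1)) (x : E)) (x : E)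
      (Wm J a (1 / ((k : ℝ) + 1)) (x : E)) (hx1 x) (norm_Wm hJ ha (hx1 x) (Or.inr hx))
      (inner_Wm hJ ha (hx1 x) _)
      (fun δ => by
        have hxx : ⟪(x : E), (x : E)⟫ = 1 := by rw [real_inner_self_eq_norm_sq, hx1]; norm_num
        simp [Tm, pr, inner_sub_right, inner_smul_right, hxx])
      (inner_Wm_Tm hJ ha (hx1 x) (Or.inr hx))
    refine h2.trans ?_
    rw [← inv_pow, ← mul_pow]
    refine pow_le_pow_left₀ (by positivity) ?_ m
    rw [← div_eq_mul_inv, le_div_iff₀ hu]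
    nlinarith
  have hint : Integrable (fun x : sphere (0 : E) 1 => 202 ^ m * ((1 + ⟪a, (x : E)⟫) ^ m)⁻¹) S := by
    refine Integrable.const_mul ⟨?_, ?_⟩ _
    · refine Measurable.aestronglyMeasurable ?_
      exact ((measurable_const.add (continuous_const.inner continuous_subtype_val).measurable).pow_const
        m).inv
    · rw [hasFiniteIntegral_iff_ofReal]
      · exact lintegral_pow_lt_top m hm hfr ha
      · filter_upwards [hae] with x hx
        have := hu0 x hx
        positivity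
  have hmain := tendsto_integral_of_dominated_convergence _ hmeas hint hbound hlim
  have hb : ‖J a‖ = 1 := by rw [hJ.norm, ha]
  have hden := lintegral_density m hm hfr ha hb (hJ.inner a)
  have hval : ∫ x : sphere (0 : E) 1, √(2 / (1 + ⟪a, (x : E)⟫))
      * √(1 + (⟪J a, (x : E)⟫ / (1 + ⟪a, (x : E)⟫)) ^ 2) ^ (2 * m - 1) ∂S
      = 16 ^ m / ((4 * m).choose (2 * m) : ℝ) * S.real univ := by
    rw [integral_eq_lintegral_of_nonneg_ae (Eventually.of_forall fun x => by positivity)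
      (aestronglyMeasurable_of_tendsto_ae _ hmeas hlim), hden, const_eq m hm hfr, ENNReal.toReal_ofReal]
    positivity
  rw [hval] at hmain
  exact hmain

end Pool.Agent.Helper19.PU
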